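import Pool.Agent.H752R3.ScaleBasics

/-!
Under CH: a family of generic functions lying above an unbounded chain, which is Rothberger.
-/

set_option autoImplicit false

namespace Pool.Agent.Y996.RS

open Set Filter Cardinal
open Pool.Agent.H752R3

/-- The requirement coming from a function `b` and a sequence `v` of candidate covers: one choice
for every `n`. -/
def Req1 (b : ℕ → ℕ) (v : ℕ → ℕ → List ℕ) (q : Cond) : Prop :=
  (∃ᶠ n in atTop, b n ≤ q.c n) ∧
    ((∃ x : ℕ → ℕ, (∀ᶠ n in atTop, q.c n ≤ x n) ∧ (∀ d ∈ q.D, x ∈ d) ∧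
        ∃ n, ∀ j, x ∉ Cyl (v n j)) ∨
      ∃ g : ℕ → ℕ, ∀ m, {x : ℕ → ℕ | ∃ n ≥ m, x ∈ Cyl (v n (g n))} ∈ q.D)

theorem exists_req1 (p : Cond) (b : ℕ → ℕ) (v : ℕ → ℕ → List ℕ) :
    ∃ q, Cond.le q p ∧ Req1 b v q := by
  obtain ⟨q, hq, hqb⟩ := Cond.exists_lower (fun _ => p)
    (fun _ => ⟨Eventually.of_forall fun n => le_refl _, Subset.rfl⟩) b
  by_cases hcase : ∃ n u k, (⋃ j, Cyl (v n j)) ∩ Cone q.c u k = ∅
  · obtain ⟨n, u, k, hnuk⟩ := hcase
    obtain ⟨x, hx, hxD⟩ := q.exists_generic u k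
    refine ⟨q, hq 0, hqb, Or.inl ⟨x, ?_, hxD, n, fun j hj => ?_⟩⟩
    · exact eventually_atTop.2 ⟨k, fun i hi => hx.2 i hi⟩
    · have : x ∈ (⋃ j, Cyl (v n j)) ∩ Cone q.c u k := ⟨mem_iUnion.2 ⟨j, hj⟩, hx⟩
      rw [hnuk] at this
      exact this
  · push Not at hcase
    -- enumerate finite sequences
    obtain ⟨s, hs⟩ : ∃ s : ℕ → List ℕ, Function.Surjective s := exists_surjective_nat _
    have h1 : ∀ n i, ∃ j, (Cyl (v n j) ∩
        Cone q.c (fun m => (s i).getD m 0) (s i).length).Nonempty := by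
      intro n i
      obtain ⟨x, hx1, hx2⟩ := hcase n (fun m => (s i).getD m 0) (s i).length
      obtain ⟨j, hj⟩ := mem_iUnion.1 hx1
      exact ⟨j, x, hj, hx2⟩
    choose G hG using h1
    -- every finite sequence is treated infinitely often
    let g : ℕ → ℕ := fun n => G n (Nat.unpair n).1
    let Dm : ℕ → Set (ℕ → ℕ) := fun m => {x | ∃ n ≥ m, x ∈ Cyl (v n (g n))}
    have hDmopen : ∀ m, IsOpen (Dm m) := by
      intro m
      have : Dm m = ⋃ n, ⋃ (_ : n ≥ m), Cyl (v n (g n)) := by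
        ext x; simp [Dm]
      rw [this]
      exact isOpen_iUnion fun n => isOpen_iUnion fun _ => isOpen_Cyl _
    have hDmgood : ∀ m, Good (Dm m) q.c := by
      intro m u k
      obtain ⟨i, hi⟩ := hs (List.ofFn (fun i : Fin k => u i))
      set n := Nat.pair i m with hn
      obtain ⟨x, hx1, hx2⟩ := hG n i
      have hgn : g n = G n i := by
        show G n (Nat.unpair n).1 = G n i
        rw [hn, Nat.unpair_pair]
      refine ⟨x, ⟨n, Nat.right_le_pair i m, by rw [hgn]; exact hx1⟩, ?_, ?_⟩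
      · intro l hl
        have hlen : (s i).length = k := by rw [hi]; simp
        rw [hx2.1 l (by rw [hlen]; exact hl), hi]
        simp [List.getD_eq_getElem?_getD, hl]
      · intro l hl
        have hlen : (s i).length = k := by rw [hi]; simp
        exact hx2.2 l (by rw [hlen]; exact hl)
    refine ⟨⟨q.c, q.D ∪ range Dm, q.cnt.union (countable_range _), ?_, ?_⟩, ⟨(hq 0).1, ?_⟩,
      hqb, Or.inr ⟨g, fun m => Or.inr ⟨m, rfl⟩⟩⟩
    · rintro d (hd | ⟨m, rfl⟩)
      · exact q.opn d hd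
      · exact hDmopen m
    · rintro d (hd | ⟨m, rfl⟩)
      · exact q.good d hd
      · exact hDmgood m
    · exact (hq 0).2.trans subset_union_left

/-- **The construction.**  Under CH there are functions `c α`, `f α` (`α < ω₁`) such that the
`c α` are unbounded, every `c α` is eventually below all `f β` with `α ≤ β`, and the set of all
`f α` is Rothberger. -/
theorem exists_family (CH : (ℵ₁ : Cardinal.{0}) = 𝔠) :
    ∃ f c : (ℵ₁ : Cardinal.{0}).ord.ToType → ℕ → ℕ,
      (∀ b : ℕ → ℕ, ∃ a, ∃ᶠ n in atTop, b n ≤ c a n) ∧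
      (∀ a a', a ≤ a' → ∀ᶠ n in atTop, c a n ≤ f a' n) ∧
      ∀ v : ℕ → ℕ → List ℕ, (∀ a n, ∃ j, f a ∈ Cyl (v n j)) →
        ∃ g : ℕ → ℕ, ∀ a, ∃ᶠ n in atTop, f a ∈ Cyl (v n (g n)) := by
  classical
  have : Nonempty (ℵ₁ : Cardinal.{0}).ord.ToType := by
    rw [← Cardinal.mk_ne_zero_iff, Cardinal.mk_ord_toType]
    exact (Cardinal.aleph_pos 1).ne'
  obtain ⟨e, he⟩ := exists_surjection_omega1 CH (α := (ℕ → ℕ) × (ℕ → ℕ → List ℕ)) (by
    simp)
  have : Nonempty Cond := ⟨⟨fun _ => 0, ∅, countable_empty, fun d hd => absurd hd (notMem_empty d),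
    fun d hd => absurd hd (notMem_empty d)⟩⟩
  obtain ⟨F, hF, hR⟩ := sigma_closed_recursion (ι := (ℵ₁ : Cardinal.{0}).ord.ToType)
    countable_Iio_omega1 (P := Cond) Cond.le
    (fun p => ⟨Eventually.of_forall fun n => le_refl _, Subset.rfl⟩)
    (fun p q r hpq hqr => ⟨by
      filter_upwards [hpq.1, hqr.1] with n h1 h2
      exact h2.trans h1, hqr.2.trans hpq.2⟩)
    (fun p hp => by
      obtain ⟨q, hq, -⟩ := Cond.exists_lower p hp (fun _ => 0)
      exact ⟨q, hq⟩)
    (fun a q => Req1 (e a).1 (e a).2 q) (fun a p => exists_req1 p _ _)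
  -- choose the generic points
  have hx : ∀ a, ∃ x : ℕ → ℕ, (∀ᶠ n in atTop, (F a).c n ≤ x n) ∧ (∀ d ∈ (F a).D, x ∈ d) ∧
      ((∃ n, ∀ j, x ∉ Cyl ((e a).2 n j)) ∨
      ∃ g : ℕ → ℕ, ∀ m, {x : ℕ → ℕ | ∃ n ≥ m, x ∈ Cyl ((e a).2 n (g n))} ∈ (F a).D) := by
    intro a
    rcases (hR a).2 with ⟨x, h1, h2, h3⟩ | h
    · exact ⟨x, h1, h2, Or.inl h3⟩
    · obtain ⟨x, hx1, hx2⟩ := (F a).exists_generic (fun _ => 0) 0
      exact ⟨x, eventually_atTop.2 ⟨0, fun i hi => hx1.2 i hi⟩, hx2, Or.inr h⟩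
  choose f hf1 hf2 hf3 using hx
  refine ⟨f, fun a => (F a).c, ?_, ?_, ?_⟩
  · intro b
    obtain ⟨a, ha⟩ := he (b, fun _ _ => [])
    refine ⟨a, ?_⟩
    have := (hR a).1
    rw [ha] at this
    exact this
  · intro a a' haa'
    filter_upwards [(hF a a' haa').1, hf1 a'] with n h1 h2
    exact h1.trans h2
  · intro v hv
    -- the even numbers are used for the later points
    obtain ⟨a, ha⟩ := he (fun _ => 0, fun n => v (2 * n))
    have h3 := hf3 a
    rw [ha] at h3
    rcases h3 with ⟨n, hn⟩ | ⟨g, hg⟩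
    · obtain ⟨j, hj⟩ := hv a (2 * n)
      exact absurd hj (hn j)
    · -- the odd numbers are used for the countably many points below `a`
      have hcount : (Set.Iio a).Countable := countable_Iio_omega1 a
      obtain ⟨h, hh⟩ : ∃ h : ℕ → ℕ, ∀ b < a, ∃ᶠ n in atTop,
          f b ∈ Cyl (v (2 * n + 1) (h n)) := by
        rcases (Set.Iio a).eq_empty_or_nonempty with hemp | hne
        · refine ⟨fun _ => 0, fun b hb => ?_⟩
          have : b ∈ Set.Iio a := hb
          rw [hemp] at this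
          exact absurd this (notMem_empty b)
        · obtain ⟨t, ht⟩ := hcount.exists_eq_range hne
          choose J hJ using hv
          refine ⟨fun n => J (t (Nat.unpair n).1) (2 * n + 1), fun b hb => ?_⟩
          have : b ∈ Set.Iio a := hb
          rw [ht] at this
          obtain ⟨i, rfl⟩ := this
          rw [frequently_atTop]
          intro m
          refine ⟨Nat.pair i m, Nat.right_le_pair i m, ?_⟩
          have h1 := hJ (t i) (2 * Nat.pair i m + 1)
          simp only [Nat.unpair_pair]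
          exact h1
      refine ⟨fun n => if n % 2 = 0 then g (n / 2) else h (n / 2), fun b => ?_⟩
      rw [frequently_atTop]
      intro m
      rcases lt_or_ge b a with hb | hb
      · obtain ⟨n, hn, hfn⟩ := frequently_atTop.1 (hh b hb) m
        refine ⟨2 * n + 1, by omega, ?_⟩
        show f b ∈ Cyl (v (2 * n + 1)
          (if (2 * n + 1) % 2 = 0 then g ((2 * n + 1) / 2) else h ((2 * n + 1) / 2)))
        rw [if_neg (by omega), show (2 * n + 1) / 2 = n by omega]
        exact hfn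
      · obtain ⟨n, hn, hfn⟩ := hf2 b _ ((hF a b hb).2 (hg m))
        refine ⟨2 * n, by omega, ?_⟩
        show f b ∈ Cyl (v (2 * n)
          (if (2 * n) % 2 = 0 then g ((2 * n) / 2) else h ((2 * n) / 2)))
        rw [if_pos (by omega), show 2 * n / 2 = n by omega]
        exact hfn

/-- Reading off the selection for a continuous image of a family in the Baire space. -/
theorem rothberger_of_family {ι : Type} [Nonempty ι] {Z : Type*} [TopologicalSpace Z]
    (f : ι → ℕ → ℕ) (Φ : (ℕ → ℕ) → Z) (hΦ : Continuous Φ)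
    (hf : ∀ v : ℕ → ℕ → List ℕ, (∀ a n, ∃ j, f a ∈ Cyl (v n j)) →
        ∃ g : ℕ → ℕ, ∀ a, ∃ᶠ n in atTop, f a ∈ Cyl (v n (g n)))
    (U : ℕ → Set (Set (range fun a => Φ (f a))))
    (hU : ∀ n, (∀ u ∈ U n, IsOpen u) ∧ ⋃₀ U n = Set.univ) :
    ∃ F : ℕ → Set (range fun a => Φ (f a)), (∀ n, F n ∈ U n) ∧
      ∀ y, ∃ᶠ n in atTop, y ∈ F n := by
  classical
  let pt : ι → (range fun a => Φ (f a)) := fun a => ⟨Φ (f a), a, rfl⟩
  let A : ℕ → Set (List ℕ) := fun n => {l | ∃ u ∈ U n, ∀ a, f a ∈ Cyl l → pt a ∈ u}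
  have hA : ∀ n a, ∃ l ∈ A n, f a ∈ Cyl l := by
    intro n a
    have : pt a ∈ ⋃₀ U n := by rw [(hU n).2]; trivial
    obtain ⟨u, hu, hau⟩ := this
    obtain ⟨V, hV, hVu⟩ := isOpen_induced_iff.1 ((hU n).1 u hu)
    have h1 : f a ∈ Φ ⁻¹' V := by
      have : pt a ∈ Subtype.val ⁻¹' V := by rw [hVu]; exact hau
      exact this
    obtain ⟨L, hL⟩ := exists_agree_of_isOpen (hV.preimage hΦ) h1
    refine ⟨List.ofFn (fun i : Fin L => f a i), ⟨u, hu, fun a' ha' => ?_⟩, ?_⟩
    · have h2 : f a' ∈ Φ ⁻¹' V := by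
        apply hL
        intro n hn
        have := ha' n (by simpa using hn)
        rw [this]
        simp [List.getD_eq_getElem?_getD, hn]
      rw [← hVu]
      exact h2
    · intro i hi
      have hi' : i < L := by simpa using hi
      simp [List.getD_eq_getElem?_getD, hi']
  have hAne : ∀ n, (A n).Nonempty := by
    intro n
    obtain ⟨l, hl, _⟩ := hA n (Classical.arbitrary ι)
    exact ⟨l, hl⟩
  have hv : ∀ n, ∃ w : ℕ → List ℕ, A n = range w := fun n =>
    (Set.to_countable (A n)).exists_eq_range (hAne n)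
  choose v hv using hv
  obtain ⟨g, hg⟩ := hf v (by
    intro a n
    obtain ⟨l, hl, hal⟩ := hA n a
    rw [hv n] at hl
    obtain ⟨j, rfl⟩ := hl
    exact ⟨j, hal⟩)
  have hvA : ∀ n j, v n j ∈ A n := fun n j => by rw [hv n]; exact ⟨j, rfl⟩
  choose W hW1 hW2 using hvA
  refine ⟨fun n => W n (g n), fun n => hW1 n (g n), ?_⟩
  rintro ⟨_, a, rfl⟩
  exact (hg a).mono fun n hn => hW2 n (g n) a hn

end Pool.Agent.Y996.RS
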